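import Mathlib
import Pool.Agent.R104.FTri7

set_option autoImplicit false

namespace Pool.Agent.Results.MP_31abb5_co.SecondOrder

open Filter Topology Pool.Agent.R104.FTri

/-- **Second-order term of the largest missing number of frustrated triangles.**

`frustrated G` is the number of 3-sets of vertices spanning an odd number of edges of `G`,
`F n` is the set of values of `frustrated` over graphs on `n` vertices, `Missing n` is the set of
`m < (n choose 3) / 2` with `m ∉ F n` (for even `n` only even `m`, since by the first part all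
members of `F n` are even then), and `largest n` is its largest element. -/
theorem result :
    (∀ n : ℕ, Even n → ∀ m ∈ F n, Even m) ∧
    (∃ (C : ℝ) (n₀ : ℕ), ∀ n ≥ n₀, IsGreatest (Missing n) (largest n) ∧
      (Even n → |(largest n : ℝ) -
        ((n : ℝ) ^ (3 / 2 : ℝ) + √2 * (n : ℝ) ^ (5 / 4 : ℝ))| ≤ C * n) ∧
      (Odd n → |(largest n : ℝ) -
        (√2 * (n : ℝ) ^ (3 / 2 : ℝ) + 2 ^ (3 / 4 : ℝ) * (n : ℝ) ^ (5 / 4 : ℝ))| ≤ C * n)) ∧
    Tendsto (fun n : ℕ => ((largest n : ℝ) - (n : ℝ) ^ (3 / 2 : ℝ)) / (n : ℝ) ^ (5 / 4 : ℝ))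
      (atTop ⊓ 𝓟 {n | Even n}) (𝓝 (√2)) ∧
    Tendsto (fun n : ℕ => ((largest n : ℝ) - √2 * (n : ℝ) ^ (3 / 2 : ℝ)) / (n : ℝ) ^ (5 / 4 : ℝ))
      (atTop ⊓ 𝓟 {n | Odd n}) (𝓝 (2 ^ (3 / 4 : ℝ))) := by
  have hev : ∀ n : ℕ, 2000000 ≤ n → Even n → |(largest n : ℝ) -
        ((n : ℝ) ^ (3 / 2 : ℝ) + √2 * (n : ℝ) ^ (5 / 4 : ℝ))| ≤ 20 * n := by
    intro n hn he
    rw [← sqrt_form_even n]
    exact (real_bound (N := n) (Or.inl ⟨he, rfl⟩) hn).2
  have hod : ∀ n : ℕ, 2000000 ≤ n → Odd n → |(largest n : ℝ) -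
        (√2 * (n : ℝ) ^ (3 / 2 : ℝ) + 2 ^ (3 / 4 : ℝ) * (n : ℝ) ^ (5 / 4 : ℝ))| ≤ 20 * n := by
    intro n hn ho
    rw [← sqrt_form_odd n]
    exact (real_bound (N := 2 * n) (Or.inr ⟨ho, rfl⟩) hn).2
  refine ⟨fun n hn m hm => F_even hn hm, ⟨20, 2000000, fun n hn => ⟨?_, hev n hn, hod n hn⟩⟩, ?_, ?_⟩
  · rcases Nat.even_or_odd n with h | h
    · exact (real_bound (N := n) (Or.inl ⟨h, rfl⟩) hn).1
    · exact (real_bound (N := 2 * n) (Or.inr ⟨h, rfl⟩) hn).1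
  · apply limit_of_bound (fun n => (largest n : ℝ) - (n : ℝ) ^ (3 / 2 : ℝ)) _ 20 _ 2000000
    intro n hn he
    have := hev n hn he
    rwa [sub_sub]
  · apply limit_of_bound (fun n => (largest n : ℝ) - √2 * (n : ℝ) ^ (3 / 2 : ℝ)) _ 20 _ 2000000
    intro n hn ho
    have := hod n hn ho
    rwa [sub_sub]

end Pool.Agent.Results.MP_31abb5_co.SecondOrder
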